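import Mathlib

set_option autoImplicit false

namespace Pool.Agent.Results.MP_5baea4_co.NotHankel

/-- Row insertion of `x` into a weakly increasing row: `x` replaces the leftmost entry greater
than `x`, which is bumped out; if there is no such entry, `x` is appended at the end. -/
def rowInsert : List ℕ → ℕ → List ℕ × Option ℕ
  | [], x => ([x], none)
  | y :: ys, x => if x < y then (x :: ys, some y)
      else (y :: (rowInsert ys x).1, (rowInsert ys x).2)

/-- RSK insertion of `x` into a tableau (list of rows, top row first). -/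
def tabInsert : List (List ℕ) → ℕ → List (List ℕ)
  | [], x => [[x]]
  | r :: rs, x => match (rowInsert r x).2 with
      | none => (rowInsert r x).1 :: rs
      | some y => (rowInsert r x).1 :: tabInsert rs y

/-- The bottom line of the two-line array of `M`: for `i = 1, …, n` and then `j = 1, …, n`, the
letter `j` is listed `M i j` times. -/
def bottomWord {n : ℕ} (M : Matrix (Fin n) (Fin n) ℕ) : List ℕ :=
  (List.finRange n).flatMap fun i => (List.finRange n).flatMap fun j =>
    List.replicate (M i j) ((j : ℕ) + 1)

/-- The insertion tableau `P` of `M`. -/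
def pTableau {n : ℕ} (M : Matrix (Fin n) (Fin n) ℕ) : List (List ℕ) :=
  (bottomWord M).foldl tabInsert []

/-- The RSK shape of `M`: the list of row lengths of `P`. -/
def shape {n : ℕ} (M : Matrix (Fin n) (Fin n) ℕ) : List ℕ := (pTableau M).map List.length

/-- The inversion number of `M`. -/
def inv {n : ℕ} (M : Matrix (Fin n) (Fin n) ℕ) : ℕ :=
  ∑ i, ∑ k, ∑ j, ∑ l, if i < k ∧ l < j then M i j * M k l else 0

/-- `M` is a minimal matrix of shape `lam`. -/
def IsMinimal {n : ℕ} (lam : List ℕ) (M : Matrix (Fin n) (Fin n) ℕ) : Prop :=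
  shape M = lam ∧ ∀ N : Matrix (Fin n) (Fin n) ℕ, shape N = lam → inv M ≤ inv N

/-- `M` is a Hankel matrix. -/
def IsHankel {n : ℕ} (M : Matrix (Fin n) (Fin n) ℕ) : Prop :=
  ∃ s : ℕ → ℤ, ∀ i j : Fin n, (M i j : ℤ) = s ((i : ℕ) + (j : ℕ))

lemma rowInsert_length (r : List ℕ) (x : ℕ) :
    (rowInsert r x).1.length = r.length + (if (rowInsert r x).2 = none then 1 else 0) := by
  induction r with
  | nil => simp [rowInsert]
  | cons y ys ih =>
    unfold rowInsert
    split_ifs with h1 h2 h2
    · simp at h2
    · simp
    · rw [List.length_cons, ih, if_pos h2, List.length_cons]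
    · rw [List.length_cons, ih, if_neg h2, List.length_cons]

lemma tabInsert_length (T : List (List ℕ)) (x : ℕ) :
    ((tabInsert T x).map List.length).sum = (T.map List.length).sum + 1 := by
  induction T generalizing x with
  | nil => simp [tabInsert]
  | cons r rs ih =>
    unfold tabInsert
    have h := rowInsert_length r x
    split
    next heq =>
      rw [heq, if_pos rfl] at h
      simp only [List.map_cons, List.sum_cons, h]
      ring
    next y heq =>
      rw [heq, if_neg (by simp)] at h
      simp only [List.map_cons, List.sum_cons, h, ih]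
      ring

lemma foldl_length (w : List ℕ) (T : List (List ℕ)) :
    ((w.foldl tabInsert T).map List.length).sum = (T.map List.length).sum + w.length := by
  induction w generalizing T with
  | nil => simp
  | cons x w ih =>
    rw [List.foldl_cons, ih, tabInsert_length, List.length_cons]
    ring

/-- explicit word of a Hankel matrix -/
def wordH (a b c d e f g : ℕ) : List ℕ :=
  List.replicate a 1 ++ (List.replicate b 2 ++ (List.replicate c 3 ++ (List.replicate d 4 ++
  (List.replicate b 1 ++ (List.replicate c 2 ++ (List.replicate d 3 ++ (List.replicate e 4 ++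
  (List.replicate c 1 ++ (List.replicate d 2 ++ (List.replicate e 3 ++ (List.replicate f 4 ++
  (List.replicate d 1 ++ (List.replicate e 2 ++ (List.replicate f 3 ++
    List.replicate g 4))))))))))))))

/-- explicit inversion number of a Hankel matrix -/
def invH (b c d e f : ℕ) : ℕ :=
  b * (b + c + d) + c * (b + c + c + d + d + e) + d * (b + c + d + c + d + e + d + e + f)
  + c * (c + d) + d * (c + d + d + e) + e * (c + d + e + d + e + f)
  + d * d + e * (d + e) + f * (d + e + f)

/-- the finite check -/
def test (a b c d e f g : ℕ) : Bool :=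
  if 43 < invH b c d e f then true
  else !(((wordH a b c d e f g).foldl tabInsert []).map List.length == [8, 8, 1, 1])

/-- enumeration of all Hankel matrices with entries summing to `18` -/
def enum : Bool :=
  (List.range 5).all fun d => (List.range 7).all fun c => (List.range 7).all fun e =>
  (List.range 10).all fun b => (List.range 10).all fun f =>
    if 18 < 2 * b + 3 * c + 4 * d + 3 * e + 2 * f then true
    else (List.range (18 - (2 * b + 3 * c + 4 * d + 3 * e + 2 * f) + 1)).all fun a =>
      test a b c d e f (18 - (2 * b + 3 * c + 4 * d + 3 * e + 2 * f) - a)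

set_option maxRecDepth 100000 in
theorem enum_eq : enum = true := by decide +kernel

/-- the Hankel matrix with given entries -/
def hk (a b c d e f g : ℕ) : Matrix (Fin 4) (Fin 4) ℕ :=
  !![a, b, c, d; b, c, d, e; c, d, e, f; d, e, f, g]

lemma eq_hk {M : Matrix (Fin 4) (Fin 4) ℕ} (h : IsHankel M) :
    ∃ a b c d e f g, M = hk a b c d e f g := by
  obtain ⟨s, hs⟩ := h
  refine ⟨M 0 0, M 0 1, M 0 2, M 0 3, M 1 3, M 2 3, M 3 3, ?_⟩
  have key : ∀ i j k l : Fin 4, (i : ℕ) + j = k + l → M i j = M k l := by
    intro i j k l h
    have h1 := hs i j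
    have h2 := hs k l
    rw [h, ← h2] at h1
    exact_mod_cast h1
  ext i j
  fin_cases i <;> fin_cases j <;> simp only [hk] <;> first | rfl | (apply key; rfl)

lemma word_hk (a b c d e f g : ℕ) : bottomWord (hk a b c d e f g) = wordH a b c d e f g := by
  simp [bottomWord, wordH, hk, List.finRange_succ]

lemma inv_hk (a b c d e f g : ℕ) : inv (hk a b c d e f g) = invH b c d e f := by
  simp [inv, invH, hk, Fin.sum_univ_succ]
  ring

/-- a Hankel matrix of shape `(8,8,1,1)` has at least `44` inversions -/
lemma hankel_inv {M : Matrix (Fin 4) (Fin 4) ℕ} (h : IsHankel M) (hs : shape M = [8, 8, 1, 1]) :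
    43 < inv M := by
  obtain ⟨a, b, c, d, e, f, g, rfl⟩ := eq_hk h
  rw [inv_hk]
  have hsh : ((wordH a b c d e f g).foldl tabInsert []).map List.length = [8, 8, 1, 1] := by
    rw [← word_hk]; exact hs
  have hsum : a + 2 * b + 3 * c + 4 * d + 3 * e + 2 * f + g = 18 := by
    have h1 := foldl_length (wordH a b c d e f g) []
    rw [hsh] at h1
    simp [wordH] at h1
    omega
  have h := enum_eq
  simp only [enum, List.all_eq_true, List.mem_range] at h
  have h2 := h d (by omega) c (by omega) e (by omega) b (by omega) f (by omega)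
  rw [if_neg (by omega)] at h2
  simp only [List.all_eq_true, List.mem_range] at h2
  have h3 := h2 a (by omega)
  have hg : 18 - (2 * b + 3 * c + 4 * d + 3 * e + 2 * f) - a = g := by omega
  rw [hg] at h3
  unfold test at h3
  by_contra hc
  rw [if_neg hc, hsh] at h3
  simp at h3

/-- the matrix with `43` inversions -/
def good : Matrix (Fin 4) (Fin 4) ℕ := !![0, 3, 0, 1; 3, 0, 2, 0; 0, 2, 0, 3; 1, 0, 3, 0]

lemma good_shape : shape good = [8, 8, 1, 1] := by
  have : bottomWord good = [2, 2, 2, 4, 1, 1, 1, 3, 3, 2, 2, 4, 4, 4, 1, 3, 3, 3] := by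
    simp [bottomWord, good, List.finRange_succ]
  unfold shape pTableau
  rw [this]
  decide +kernel

lemma good_inv : inv good = 43 := by
  simp [inv, good, Fin.sum_univ_succ]

/-- **The partition `(8,8,1,1)` has minimal matrices, and none of them is Hankel.** -/
theorem result :
    (∃ M : Matrix (Fin 4) (Fin 4) ℕ, IsMinimal [8, 8, 1, 1] M) ∧
    ∀ M : Matrix (Fin 4) (Fin 4) ℕ, IsMinimal [8, 8, 1, 1] M → ¬ IsHankel M := by
  classical
  constructor
  · have hex : ∃ k, ∃ M : Matrix (Fin 4) (Fin 4) ℕ, shape M = [8, 8, 1, 1] ∧ inv M = k :=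
      ⟨_, good, good_shape, rfl⟩
    obtain ⟨M, hM1, hM2⟩ := Nat.find_spec hex
    refine ⟨M, hM1, fun N hN => ?_⟩
    rw [hM2]
    exact Nat.find_min' hex ⟨N, hN, rfl⟩
  · intro M hM hH
    have h1 := hankel_inv hH hM.1
    have h2 := hM.2 good good_shape
    rw [good_inv] at h2
    omega

end Pool.Agent.Results.MP_5baea4_co.NotHankel
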